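import Mathlib

set_option autoImplicit false

/-! Cardinal arithmetic for sets `s` with `2 ^ #s ≤ 𝔠` and a weak-diamond lemma. -/

namespace Pool.Agent.Work.MP_553296_lc

open Cardinal Set

universe u v

/-- A type is small if it has at most continuum many subsets. -/
def Sm (α : Type u) : Prop := (2 : Cardinal.{u}) ^ #α ≤ 𝔠

theorem Sm.of_le {α β : Type u} (h : #α ≤ #β) (hb : Sm β) : Sm α :=
  (power_le_power_left two_ne_zero h).trans hb

theorem Sm.of_injective {α β : Type u} {f : α → β} (h : Function.Injective f) (hb : Sm β) :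
    Sm α := hb.of_le (mk_le_of_injective h)

theorem Sm.subset {α : Type u} {s t : Set α} (h : s ⊆ t) (hb : Sm t) : Sm s :=
  hb.of_le (mk_le_mk_of_subset h)

theorem Sm.image {α β : Type u} {s : Set α} (f : α → β) (hb : Sm s) : Sm (f '' s) :=
  hb.of_le mk_image_le

theorem Sm.cont_power {α : Type u} (h : Sm α) {c : Cardinal.{u}} (hc : c ≤ 𝔠) : c ^ #α ≤ 𝔠 := by
  calc c ^ #α ≤ 𝔠 ^ #α := power_le_power_right hc
    _ = ((2 : Cardinal.{u}) ^ #α) ^ ℵ₀ := by
        rw [← two_power_aleph0, ← power_mul, ← power_mul, mul_comm]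
    _ ≤ 𝔠 ^ ℵ₀ := power_le_power_right h
    _ = 𝔠 := continuum_power_aleph0

theorem Sm.lt_cont {α : Type u} (h : Sm α) : #α < 𝔠 := (cantor _).trans_le h

theorem Sm.iUnion {α ι : Type u} {f : ι → Set α} (hi : Sm ι) (h : ∀ i, Sm (f i)) :
    Sm (⋃ i, f i) := by
  unfold Sm
  calc (2 : Cardinal.{u}) ^ #(⋃ i, f i) ≤ 2 ^ (sum fun i => #(f i)) :=
        power_le_power_left two_ne_zero mk_iUnion_le_sum_mk
    _ = prod fun i => (2 : Cardinal.{u}) ^ #(f i) := by rw [power_sum]
    _ ≤ prod fun _ : ι => 𝔠 := prod_le_prod _ _ h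
    _ = 𝔠 ^ #ι := prod_const' _ _
    _ ≤ 𝔠 := hi.cont_power le_rfl

theorem Sm.of_countable {α : Type u} (h : #α ≤ ℵ₀) : Sm α := by
  unfold Sm
  rw [← two_power_aleph0]
  exact power_le_power_left two_ne_zero h

theorem Sm.of_empty {α : Type u} [IsEmpty α] : Sm α :=
  Sm.of_countable (by simp)

section wo

variable {ι : Type u} [LinearOrder ι] [WellFoundedLT ι]

theorem exists_Iio_card {c : Cardinal.{u}} (h : c < #ι) : ∃ a : ι, #(Iio a) = c := by
  have h1 : c.ord < Ordinal.type (fun a b : ι => a < b) := by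
    by_contra hn
    push Not at hn
    have := Ordinal.card_le_card hn
    rw [Ordinal.card_type, card_ord] at this
    exact absurd h (not_lt.mpr this)
  refine ⟨Ordinal.enum (fun a b : ι => a < b) ⟨c.ord, h1⟩, ?_⟩
  have h2 := Ordinal.typein_enum (fun a b : ι => a < b) h1
  have h3 := congrArg Ordinal.card h2
  rw [Ordinal.card_typein, card_ord] at h3
  exact h3

theorem card_le_cont (hs : ∀ a : ι, Sm (Iic a)) : #ι ≤ 𝔠 := by
  by_contra hn
  push Not at hn
  obtain ⟨a, ha⟩ := exists_Iio_card hn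
  have h1 : Sm (Iio a) := (hs a).subset (fun x hx => le_of_lt hx)
  exact absurd h1.lt_cont (by rw [ha]; exact lt_irrefl _)

/-- A set of size at most continuum has at most continuum many small subsets. -/
theorem card_small_sets (hs : ∀ a : ι, Sm (Iic a)) (hbig : ¬ Sm ι) {E : Type u} (hE : #E ≤ 𝔠) :
    #{P : Set E // Sm P} ≤ 𝔠 := by
  have hsI : ∀ a : ι, Sm (Iio a) := fun a => (hs a).subset (fun x hx => le_of_lt hx)
  let F : (Σ a : ι, (Iio a → E)) → Set E := fun p => range p.2
  have h1 : Function.Injective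
      (fun P : {P : Set E // Sm P} => (⟨P.1, by
        have hlt : #P.1 < #ι := by
          by_contra hn
          exact hbig (P.2.of_le (not_lt.mp hn))
        obtain ⟨a, ha⟩ := exists_Iio_card hlt
        obtain ⟨e⟩ := Cardinal.eq.mp ha
        refine ⟨⟨a, fun i => (e i : E)⟩, ?_⟩
        ext x
        constructor
        · rintro ⟨i, rfl⟩; exact (e i).2
        · intro hx; exact ⟨e.symm ⟨x, hx⟩, by simp⟩⟩ : range F)) := by
    intro P Q h
    have := congrArg Subtype.val h
    exact Subtype.ext this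
  calc #{P : Set E // Sm P} ≤ #(range F) := mk_le_of_injective h1
    _ ≤ #(Σ a : ι, (Iio a → E)) := mk_range_le
    _ = sum fun a : ι => #(Iio a → E) := mk_sigma _
    _ ≤ sum fun _ : ι => 𝔠 := by
        refine sum_le_sum _ _ (fun a => ?_)
        rw [← power_def]
        exact (hsI a).cont_power hE
    _ = #ι * 𝔠 := sum_const' _ _
    _ ≤ 𝔠 * 𝔠 := mul_le_mul' (card_le_cont hs) le_rfl
    _ = 𝔠 := continuum_mul_self

/-- Small subsets of a non-small well-order with small initial segments are bounded. -/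
theorem small_bounded (hs : ∀ a : ι, Sm (Iic a)) (hbig : ¬ Sm ι) {s : Set ι} (h : Sm s) :
    ∃ a, ∀ b ∈ s, b < a := by
  by_contra hn
  push Not at hn
  apply hbig
  have : (⋃ b : s, Iic (b : ι)) = Set.univ := by
    ext a
    obtain ⟨b, hb, hab⟩ := hn a
    simp only [mem_iUnion, mem_univ, iff_true]
    exact ⟨⟨b, hb⟩, hab⟩
  have h2 : Sm (⋃ b : s, Iic (b : ι)) := Sm.iUnion h (fun b => hs _)
  rw [this] at h2
  exact h2.of_le (by rw [mk_univ])

/-- **Weak diamond** (Devlin-Shelah). -/
theorem weak_diamond (hs : ∀ a : ι, Sm (Iic a)) (hbig : ¬ Sm ι) (b : ι) (hb : ∀ a, b ≤ a)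
    {H : Type u} (hH : #H ≤ 𝔠) (h : (ι → Bool) → ι → H) :
    ∃ x y : ι → Bool, ∃ δ, b < δ ∧ (∀ γ < δ, x γ = y γ) ∧ x δ ≠ y δ ∧ ∀ γ < δ, h x γ = h y γ := by
  by_contra hn
  push Not at hn
  apply hbig
  -- the reals
  let R : Type u := ULift.{u} ℕ → Bool
  have hR : #R = 𝔠 := by
    simp [R]
  let J : Type u := ULift.{u} ℕ → Bool × H
  have hJ : #J ≤ 𝔠 := by
    have : #J = #(Bool × H) ^ #(ULift.{u} ℕ) := by simp [J]
    rw [this]
    refine (Sm.of_countable (by simp)).cont_power ?_
    have : #(Bool × H) = 2 * #H := by simp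
    rw [this]
    calc (2 : Cardinal.{u}) * #H ≤ 𝔠 * 𝔠 := mul_le_mul' (by
          exact_mod_cast (nat_lt_continuum 2).le) hH
      _ = 𝔠 := continuum_mul_self
  have hcode : ∀ δ : ι, ∃ f : (Iic δ → J) → R, Function.Injective f := by
    intro δ
    have : #(Iic δ → J) ≤ #R := by
      rw [← power_def, hR]
      exact (hs δ).cont_power hJ
    obtain ⟨e⟩ := this
    exact ⟨e, e.injective⟩
  choose code hcode using hcode
  let I : (ι → R) → ι → J := fun G γ n => (G γ n, h (fun δ => G δ n) γ)
  let nx : (ι → R) → (ι → R) := fun G δ => code δ (fun γ => I G γ)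
  let Φ : (ι → R) → ULift.{u} ℕ → J := fun G n => I (nx^[n.down] G) b
  have hΦ : Function.Injective Φ := by
    intro G G' hGG
    have key : ∀ δ : ι, ∀ n : ℕ, I (nx^[n] G) δ = I (nx^[n] G') δ := by
      intro δ
      induction δ using WellFoundedLT.induction with
      | ind δ ih =>
        rcases eq_or_lt_of_le (hb δ) with h1 | h1
        · intro n
          have := congrFun hGG ⟨n⟩
          rw [← h1]; exact this
        · have h2 : ∀ n : ℕ, nx^[n] G δ = nx^[n] G' δ := by
            intro n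
            funext k
            by_contra hne
            obtain ⟨γ, hγ, hγ'⟩ := hn (fun d => nx^[n] G d k) (fun d => nx^[n] G' d k) δ h1
              (fun γ hγ => by
                have := congrArg Prod.fst (congrFun (ih γ hγ n) k)
                exact this) hne
            have := congrArg Prod.snd (congrFun (ih γ hγ n) k)
            exact hγ' this
          intro n
          have h3 := h2 (n + 1)
          rw [Function.iterate_succ_apply', Function.iterate_succ_apply'] at h3
          have h4 := hcode δ h3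
          exact congrFun h4 ⟨δ, le_rfl⟩
    funext δ k
    exact congrArg Prod.fst (congrFun (key δ 0) k)
  have h1 : #(ι → R) ≤ 𝔠 := by
    refine (mk_le_of_injective hΦ).trans ?_
    rw [← power_def]
    exact (Sm.of_countable (by simp)).cont_power hJ
  have h2 : #(ι → Bool) ≤ #(ι → R) := by
    refine mk_le_of_injective (f := fun x : ι → Bool => fun i _ => x i) ?_
    intro x y hxy
    funext i
    exact congrFun (congrFun hxy i) ⟨0⟩
  have h3 : #(ι → Bool) = 2 ^ #ι := by simp
  unfold Sm
  rw [← h3]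
  exact h2.trans h1

end wo

end Pool.Agent.Work.MP_553296_lc
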