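import Mathlib

set_option autoImplicit false

/-! Delta-regressive colourings of pairs from `2^κ`. -/

namespace Pool.Agent.Work.MP_553296_lc

universe u

/-- The set `2^κ` of all functions `κ → {0, 1}`; the cardinal `κ` is the set of all ordinals below
`κ.ord`. -/
abbrev Pt (κ : Cardinal.{u}) : Type (u + 1) := Set.Iio κ.ord → Bool

/-- `Δ(x, y)` for `x ≠ y`: the least `i < κ` with `x(i) ≠ y(i)`. -/
noncomputable def delta {κ : Cardinal.{u}} (x y : Pt κ) : Ordinal.{u} :=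
  sInf {i | ∃ h : i < κ.ord, x ⟨i, h⟩ ≠ y ⟨i, h⟩}

/-- `c : [2^κ]² → κ` is `Δ`-regressive: `c(x, y) < Δ(x, y)` for all pairs with `Δ(x, y) > 0`. -/
def IsDeltaRegressive {κ : Cardinal.{u}} (c : Sym2 (Pt κ) → Set.Iio κ.ord) : Prop :=
  ∀ x y : Pt κ, x ≠ y → 0 < delta x y → (c s(x, y) : Ordinal.{u}) < delta x y

/-- `c` is constant on `[Y]²`. -/
def IsMonochromatic {κ : Cardinal.{u}} (c : Sym2 (Pt κ) → Set.Iio κ.ord) (Y : Set (Pt κ)) : Prop :=
  ∃ i, ∀ x ∈ Y, ∀ y ∈ Y, x ≠ y → c s(x, y) = i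

end Pool.Agent.Work.MP_553296_lc
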