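import Pool.Agent.Work.MP_553296_lc.Defs

set_option autoImplicit false

/-! Basic facts on `Δ` and the monochromatic `4`-sets. -/

namespace Pool.Agent.Work.MP_553296_lc

open Cardinal Set

universe u

variable {κ : Cardinal.{u}}

theorem delta_eq {x y : Pt κ} {δ : Ordinal.{u}} (hδ : δ < κ.ord)
    (h1 : ∀ γ (h : γ < κ.ord), γ < δ → x ⟨γ, h⟩ = y ⟨γ, h⟩) (h2 : x ⟨δ, hδ⟩ ≠ y ⟨δ, hδ⟩) :
    delta x y = δ := by
  unfold delta
  apply le_antisymm
  · exact csInf_le' ⟨hδ, h2⟩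
  · refine le_csInf ⟨δ, hδ, h2⟩ ?_
    rintro i ⟨hi, hne⟩
    by_contra hn
    exact hne (h1 i hi (not_le.mp hn))

theorem delta_mem {x y : Pt κ} (h : x ≠ y) :
    ∃ hδ : delta x y < κ.ord, x ⟨delta x y, hδ⟩ ≠ y ⟨delta x y, hδ⟩ := by
  have hne : {i | ∃ h : i < κ.ord, x ⟨i, h⟩ ≠ y ⟨i, h⟩}.Nonempty := by
    by_contra hn
    rw [not_nonempty_iff_eq_empty] at hn
    apply h
    funext i
    by_contra hi
    have : (i : Ordinal.{u}) ∈ {i | ∃ h : i < κ.ord, x ⟨i, h⟩ ≠ y ⟨i, h⟩} := ⟨i.2, hi⟩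
    rw [hn] at this
    exact this
  exact csInf_mem hne

theorem eq_of_lt_delta {x y : Pt κ} {γ : Ordinal.{u}} (h : γ < κ.ord) (hγ : γ < delta x y) :
    x ⟨γ, h⟩ = y ⟨γ, h⟩ := by
  by_contra hn
  exact absurd hγ (not_lt.mpr (csInf_le' ⟨h, hn⟩))

theorem delta_comm (x y : Pt κ) : delta x y = delta y x := by
  unfold delta
  congr 1
  ext i
  simp only [mem_ofPred_eq, ne_comm]

theorem omega_lt (hκ : ℵ₀ < κ) : Ordinal.omega0 < κ.ord := by
  rw [← Cardinal.ord_aleph0]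
  exact Cardinal.ord_lt_ord.mpr hκ

theorem nat_lt (hκ : ℵ₀ < κ) (n : ℕ) : (n : Ordinal.{u}) < κ.ord :=
  (Ordinal.natCast_lt_omega0 n).trans (omega_lt hκ)

/-- `x` extends `f` restricted to `n`. -/
def InCone (hκ : ℵ₀ < κ) (f : ℕ → Bool) (n : ℕ) (x : Pt κ) : Prop :=
  ∀ k < n, x ⟨(k : Ordinal.{u}), nat_lt hκ k⟩ = f k

/-- The colours `i` with `i + 1 < n` do not occur in the cone. -/
def Free (hκ : ℵ₀ < κ) (c : Sym2 (Pt κ) → Set.Iio κ.ord) (f : ℕ → Bool) (n : ℕ) : Prop :=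
  ∀ x y, InCone hκ f n x → InCone hκ f n y → x ≠ y → ∀ i : ℕ, i + 1 < n →
    (c s(x, y) : Ordinal.{u}) ≠ i

theorem free_congr (hκ : ℵ₀ < κ) (c : Sym2 (Pt κ) → Set.Iio κ.ord) {f g : ℕ → Bool} {n : ℕ}
    (h : ∀ k < n, f k = g k) (hf : Free hκ c f n) : Free hκ c g n := by
  intro x y hx hy
  exact hf x y (fun k hk => by rw [hx k hk, h k hk]) (fun k hk => by rw [hy k hk, h k hk])

theorem free_step (hκ : ℵ₀ < κ) (c : Sym2 (Pt κ) → Set.Iio κ.ord) (hc : IsDeltaRegressive c)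
    (hno : ¬ ∃ Y : Set (Pt κ), #Y = 4 ∧ IsMonochromatic c Y) (f : ℕ → Bool) (n : ℕ)
    (hf : Free hκ c f (n + 1)) : ∃ b : Bool, Free hκ c (Function.update f (n + 1) b) (n + 2) := by
  classical
  by_contra hn
  push Not at hn
  have hcone : ∀ b x, InCone hκ (Function.update f (n + 1) b) (n + 2) x →
      InCone hκ f (n + 1) x ∧ x ⟨((n + 1 : ℕ) : Ordinal.{u}), nat_lt hκ (n + 1)⟩ = b := by
    intro b x hx
    refine ⟨fun k hk => ?_, ?_⟩
    · rw [hx k (by omega), Function.update_of_ne (by omega)]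
    · rw [hx (n + 1) (by omega), Function.update_self]
  have key : ∀ b : Bool, ∃ x y : Pt κ, InCone hκ f (n + 1) x ∧ InCone hκ f (n + 1) y ∧ x ≠ y ∧
      x ⟨((n + 1 : ℕ) : Ordinal.{u}), nat_lt hκ (n + 1)⟩ = b ∧
      y ⟨((n + 1 : ℕ) : Ordinal.{u}), nat_lt hκ (n + 1)⟩ = b ∧
      (c s(x, y) : Ordinal.{u}) = n := by
    intro b
    have h1 := hn b
    unfold Free at h1
    push Not at h1
    obtain ⟨x, y, hx, hy, hxy, i, hi, hci⟩ := h1
    obtain ⟨hx1, hx2⟩ := hcone b x hx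
    obtain ⟨hy1, hy2⟩ := hcone b y hy
    refine ⟨x, y, hx1, hy1, hxy, hx2, hy2, ?_⟩
    have h2 : ¬ (i + 1 < n + 1) := fun h => hf x y hx1 hy1 hxy i h hci
    have h3 : i = n := by omega
    rw [hci, h3]
  obtain ⟨x0, y0, hx0, hy0, hne0, hx0', hy0', hc0⟩ := key false
  obtain ⟨x1, y1, hx1, hy1, hne1, hx1', hy1', hc1⟩ := key true
  have cross : ∀ x y : Pt κ, InCone hκ f (n + 1) x → InCone hκ f (n + 1) y →
      x ⟨((n + 1 : ℕ) : Ordinal.{u}), nat_lt hκ (n + 1)⟩ = false →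
      y ⟨((n + 1 : ℕ) : Ordinal.{u}), nat_lt hκ (n + 1)⟩ = true →
      x ≠ y ∧ (c s(x, y) : Ordinal.{u}) = n := by
    intro x y hx hy hx' hy'
    have hd : delta x y = ((n + 1 : ℕ) : Ordinal.{u}) := by
      refine delta_eq (nat_lt hκ (n + 1)) ?_ (by rw [hx', hy']; decide)
      intro γ hγ hlt
      obtain ⟨k, rfl⟩ := Ordinal.lt_omega0.mp (hlt.trans (Ordinal.natCast_lt_omega0 _))
      have hk : k < n + 1 := by exact_mod_cast hlt
      rw [hx k hk, hy k hk]
    have hxy : x ≠ y := by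
      intro e
      rw [e, hy'] at hx'
      exact absurd hx' (by decide)
    refine ⟨hxy, ?_⟩
    have h1 := hc x y hxy (by rw [hd]; exact_mod_cast Nat.succ_pos n)
    rw [hd] at h1
    obtain ⟨k, hk⟩ := Ordinal.lt_omega0.mp (h1.trans (Ordinal.natCast_lt_omega0 _))
    rw [hk] at h1 ⊢
    have hk1 : k < n + 1 := by exact_mod_cast h1
    have hk2 : ¬ (k + 1 < n + 1) := fun h => hf x y hx hy hxy k h hk
    have : k = n := by omega
    rw [this]
  apply hno
  obtain ⟨n1, e1⟩ := cross x0 x1 hx0 hx1 hx0' hx1'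
  obtain ⟨n2, e2⟩ := cross x0 y1 hx0 hy1 hx0' hy1'
  obtain ⟨n3, e3⟩ := cross y0 x1 hy0 hx1 hy0' hx1'
  obtain ⟨n4, e4⟩ := cross y0 y1 hy0 hy1 hy0' hy1'
  refine ⟨(({x0, y0, x1, y1} : Finset (Pt κ)) : Set (Pt κ)), ?_, ⟨(n : Ordinal.{u}), nat_lt hκ n⟩, ?_⟩
  · refine (Cardinal.mk_coe_finset (s := ({x0, y0, x1, y1} : Finset (Pt κ)))).trans ?_
    rw [Finset.card_insert_of_notMem, Finset.card_insert_of_notMem, Finset.card_insert_of_notMem,
      Finset.card_singleton]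
    · norm_num
    · simpa using hne1
    · simp only [Finset.mem_insert, Finset.mem_singleton]
      rintro (h | h)
      · exact n3 h
      · exact n4 h
    · simp only [Finset.mem_insert, Finset.mem_singleton]
      rintro (h | h | h)
      · exact hne0 h
      · exact n1 h
      · exact n2 h
  · intro x hx y hy hxy
    apply Subtype.ext
    show (c s(x, y) : Ordinal.{u}) = n
    simp only [Finset.coe_insert, Finset.coe_singleton, mem_insert_iff, mem_singleton_iff] at hx hy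
    rcases hx with rfl | rfl | rfl | rfl <;> rcases hy with rfl | rfl | rfl | rfl <;>
      first
      | exact absurd rfl hxy
      | assumption
      | (rw [Sym2.eq_swap]; assumption)

/-- Every `Δ`-regressive colouring has a monochromatic set with four elements. -/
theorem four (hκ : ℵ₀ < κ) (c : Sym2 (Pt κ) → Set.Iio κ.ord) (hc : IsDeltaRegressive c) :
    ∃ Y : Set (Pt κ), #Y = 4 ∧ IsMonochromatic c Y := by
  classical
  by_contra hno
  choose! g hg using fun f n (h : Free hκ c f (n + 1)) => free_step hκ c hc hno f n h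
  let G : ∀ n : ℕ, {f : ℕ → Bool // Free hκ c f (n + 1)} := fun n =>
    Nat.rec ⟨fun _ => false, fun x y _ _ _ i hi => absurd hi (by
        show ¬ (i + 1 < 0 + 1)
        omega)⟩
      (fun n ih => ⟨Function.update ih.1 (n + 1) (g ih.1 n), hg ih.1 n ih.2⟩) n
  have hG : ∀ n, (G (n + 1)).1 = Function.update (G n).1 (n + 1) (g (G n).1 n) := fun n => rfl
  have hG2 : ∀ n k, k ≤ n → ∀ m, n ≤ m → (G m).1 k = (G n).1 k := by
    intro n k hk m hm
    induction m, hm using Nat.le_induction with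
    | base => rfl
    | succ m hm ih =>
      rw [hG, Function.update_of_ne (by omega), ih]
  let F : ℕ → Bool := fun k => (G k).1 k
  have hF : ∀ n, Free hκ c F (n + 1) := by
    intro n
    refine free_congr hκ c ?_ (G n).2
    intro k hk
    exact hG2 k k le_rfl n (by omega)
  let pt : Bool → Pt κ := fun b i =>
    if (i : Ordinal.{u}) < Ordinal.omega0 then F (Cardinal.toNat (i : Ordinal.{u}).card) else b
  have hpt : ∀ b n, InCone hκ F n (pt b) := by
    intro b n k _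
    simp [pt]
  have hd : delta (pt false) (pt true) = Ordinal.omega0 := by
    refine delta_eq (omega_lt hκ) ?_ (by simp [pt])
    intro γ hγ hlt
    simp [pt, hlt]
  have hne : pt false ≠ pt true := by
    intro e
    have := congrFun e ⟨Ordinal.omega0, omega_lt hκ⟩
    simp [pt] at this
  have h1 := hc _ _ hne (by rw [hd]; exact Ordinal.omega0_pos)
  rw [hd] at h1
  obtain ⟨k, hk⟩ := Ordinal.lt_omega0.mp h1
  exact hF (k + 1) _ _ (hpt _ _) (hpt _ _) hne k (by omega) hk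

end Pool.Agent.Work.MP_553296_lc
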