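import Pool.Agent.Work.MP_553296_lc.Four

set_option autoImplicit false

/-! If `2 ^ κ ≤ 2 ^ ℵ₀` then some `Δ`-regressive colouring has no monochromatic 5-set. -/

namespace Pool.Agent.Work.MP_553296_lc

open Cardinal Set

universe u

variable {κ : Cardinal.{u}}

theorem mk_Pt (κ : Cardinal.{u}) : #(Pt κ) = Cardinal.lift.{u + 1} ((2 : Cardinal.{u}) ^ κ) := by
  have h1 : #(Pt κ) = 2 ^ #(Set.Iio κ.ord) := by simp [Pt]
  rw [h1, Cardinal.mk_Iio_ordinal]
  simp

/-- The first difference of two reals. -/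
noncomputable def dr (r s : ℕ → Bool) : ℕ := sInf {n | r n ≠ s n}

theorem dr_comm (r s : ℕ → Bool) : dr r s = dr s r := by
  unfold dr
  congr 1
  ext n
  simp only [mem_ofPred_eq, ne_comm]

theorem dr_spec {r s : ℕ → Bool} (h : r ≠ s) : r (dr r s) ≠ s (dr r s) := by
  have hne : {n | r n ≠ s n}.Nonempty := by
    obtain ⟨n, hn⟩ := Function.ne_iff.mp h
    exact ⟨n, hn⟩
  exact Nat.sInf_mem hne

open Classical in
/-- The colour of a pair with `Δ = δ` whose reals first differ at `m`. -/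
noncomputable def colr (δ : Ordinal.{u}) (m : ℕ) : Ordinal.{u} :=
  if δ = 0 then Ordinal.omega0
  else if δ < Ordinal.omega0 then ((2 * ((Cardinal.toNat δ.card - 1) / 2) : ℕ) : Ordinal.{u})
  else ((2 * m + 1 : ℕ) : Ordinal.{u})

theorem colr_lt (hκ : ℵ₀ < κ) (δ : Ordinal.{u}) (m : ℕ) : colr δ m < κ.ord := by
  unfold colr
  split_ifs
  · exact omega_lt hκ
  · exact nat_lt hκ _
  · exact nat_lt hκ _

theorem colr_nat (n m : ℕ) (hn : n ≠ 0) :
    colr (n : Ordinal.{u}) m = ((2 * ((n - 1) / 2) : ℕ) : Ordinal.{u}) := by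
  unfold colr
  rw [if_neg (by exact_mod_cast hn), if_pos (Ordinal.natCast_lt_omega0 n)]
  simp

theorem colr_reg (δ : Ordinal.{u}) (m : ℕ) (h : 0 < δ) : colr δ m < δ := by
  by_cases h1 : δ < Ordinal.omega0
  · obtain ⟨n, rfl⟩ := Ordinal.lt_omega0.mp h1
    have hn : n ≠ 0 := by
      rintro rfl
      simp at h
    rw [colr_nat n m hn]
    have : 2 * ((n - 1) / 2) < n := by omega
    exact_mod_cast this
  · unfold colr
    rw [if_neg h.ne', if_neg h1]
    exact (Ordinal.natCast_lt_omega0 _).trans_le (not_lt.mp h1)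

/-- The colouring. -/
noncomputable def negc (hκ : ℵ₀ < κ) (r : Pt κ → (ℕ → Bool)) : Sym2 (Pt κ) → Set.Iio κ.ord :=
  Sym2.lift ⟨fun x y => ⟨colr (delta x y) (dr (r x) (r y)), mem_Iio.mpr (colr_lt hκ _ _)⟩,
    fun x y => Subtype.ext (show colr (delta x y) (dr (r x) (r y)) =
      colr (delta y x) (dr (r y) (r x)) by rw [delta_comm x y, dr_comm (r x) (r y)])⟩

theorem negc_apply (hκ : ℵ₀ < κ) (r : Pt κ → (ℕ → Bool)) (x y : Pt κ) :
    (negc hκ r s(x, y) : Ordinal.{u}) = colr (delta x y) (dr (r x) (r y)) := rfl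

theorem negc_reg (hκ : ℵ₀ < κ) (r : Pt κ → (ℕ → Bool)) : IsDeltaRegressive (negc hκ r) := by
  intro x y _ h
  rw [negc_apply]
  exact colr_reg _ _ h

theorem le_four_of_inj {Y : Set (Pt κ)} (g : Pt κ → Bool × Bool)
    (h : ∀ x ∈ Y, ∀ y ∈ Y, g x = g y → x = y) : #Y ≤ 4 := by
  have h1 : Function.Injective (fun x : Y => ULift.up.{u + 1} (g x)) := by
    intro x y hxy
    exact Subtype.ext (h x x.2 y y.2 (ULift.up_injective hxy))
  have h2 := mk_le_of_injective h1
  refine h2.trans (le_of_eq ?_)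
  simp

theorem negc_mono (hκ : ℵ₀ < κ) (r : Pt κ → (ℕ → Bool)) (hr : Function.Injective r)
    {Y : Set (Pt κ)} (hY : IsMonochromatic (negc hκ r) Y) : #Y ≤ 4 := by
  classical
  obtain ⟨i, hi⟩ := hY
  have hi' : ∀ x ∈ Y, ∀ y ∈ Y, x ≠ y → colr (delta x y) (dr (r x) (r y)) = (i : Ordinal.{u}) := by
    intro x hx y hy hxy
    rw [← negc_apply hκ r x y, hi x hx y hy hxy]
  by_cases hω : (i : Ordinal.{u}) < Ordinal.omega0
  · obtain ⟨n, hn⟩ := Ordinal.lt_omega0.mp hω
    -- finite colours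
    have hd0 : ∀ x ∈ Y, ∀ y ∈ Y, x ≠ y → delta x y ≠ 0 := by
      intro x hx y hy hxy h0
      have := hi' x hx y hy hxy
      unfold colr at this
      rw [if_pos h0] at this
      rw [← this] at hω
      exact lt_irrefl _ hω
    rcases Nat.even_or_odd' n with ⟨j, hj | hj⟩
    · -- even colour `2 j`
      refine le_four_of_inj (fun x => (x ⟨((2 * j + 1 : ℕ) : Ordinal.{u}), nat_lt hκ _⟩,
        x ⟨((2 * j + 2 : ℕ) : Ordinal.{u}), nat_lt hκ _⟩)) ?_
      intro x hx y hy hg
      by_contra hxy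
      have h1 := hi' x hx y hy hxy
      obtain ⟨hlt, hne⟩ := delta_mem hxy
      by_cases hdω : delta x y < Ordinal.omega0
      · obtain ⟨k, hk⟩ := Ordinal.lt_omega0.mp hdω
        have hk0 : k ≠ 0 := by
          rintro rfl
          exact hd0 x hx y hy hxy (by rw [hk]; simp)
        rw [hk, colr_nat k _ hk0, hn, hj] at h1
        have h2 : 2 * ((k - 1) / 2) = 2 * j := by exact_mod_cast h1
        have h3 : k = 2 * j + 1 ∨ k = 2 * j + 2 := by omega
        rcases h3 with h3 | h3
        · apply hne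
          have := congrArg Prod.fst hg
          simp only at this
          convert this using 3 <;> rw [hk, h3]
        · apply hne
          have := congrArg Prod.snd hg
          simp only at this
          convert this using 3 <;> rw [hk, h3]
      · unfold colr at h1
        rw [if_neg (hd0 x hx y hy hxy), if_neg hdω, hn, hj] at h1
        have h2 : 2 * (dr (r x) (r y)) + 1 = 2 * j := by exact_mod_cast h1
        omega
    · -- odd colour `2 j + 1`
      refine le_four_of_inj (fun x => (r x j, true)) ?_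
      intro x hx y hy hg
      by_contra hxy
      have h1 := hi' x hx y hy hxy
      by_cases hdω : delta x y < Ordinal.omega0
      · obtain ⟨k, hk⟩ := Ordinal.lt_omega0.mp hdω
        have hk0 : k ≠ 0 := by
          rintro rfl
          exact hd0 x hx y hy hxy (by rw [hk]; simp)
        rw [hk, colr_nat k _ hk0, hn, hj] at h1
        have h2 : 2 * ((k - 1) / 2) = 2 * j + 1 := by exact_mod_cast h1
        omega
      · unfold colr at h1
        rw [if_neg (hd0 x hx y hy hxy), if_neg hdω, hn, hj] at h1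
        have h2 : 2 * (dr (r x) (r y)) + 1 = 2 * j + 1 := by exact_mod_cast h1
        have h3 : dr (r x) (r y) = j := by omega
        have h4 := dr_spec (fun e => hxy (hr e) : r x ≠ r y)
        rw [h3] at h4
        exact h4 (congrArg Prod.fst hg)
  · -- infinite colour: all `Δ` are zero
    refine le_four_of_inj (fun x => (x ⟨((0 : ℕ) : Ordinal.{u}), nat_lt hκ 0⟩, true)) ?_
    intro x hx y hy hg
    by_contra hxy
    have h1 := hi' x hx y hy hxy
    obtain ⟨hlt, hne⟩ := delta_mem hxy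
    have hd0 : delta x y = 0 := by
      by_contra h0
      unfold colr at h1
      rw [if_neg h0] at h1
      split_ifs at h1
      · rw [← h1] at hω
        exact hω (Ordinal.natCast_lt_omega0 _)
      · rw [← h1] at hω
        exact hω (Ordinal.natCast_lt_omega0 _)
    apply hne
    have := congrArg Prod.fst hg
    simp only at this
    convert this using 3 <;> rw [hd0] <;> simp

/-- If `2 ^ κ ≤ 2 ^ ℵ₀`, some `Δ`-regressive colouring has only monochromatic sets of size at
most 4. -/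
theorem negative (hκ : ℵ₀ < κ) (h : (2 : Cardinal.{u}) ^ κ ≤ 2 ^ (ℵ₀ : Cardinal.{u})) :
    ∃ c : Sym2 (Pt κ) → Set.Iio κ.ord, IsDeltaRegressive c ∧
      ∀ Y : Set (Pt κ), IsMonochromatic c Y → #Y ≤ 4 := by
  have h1 : Cardinal.lift.{0} #(Pt κ) ≤ Cardinal.lift.{u + 1} #(ℕ → Bool) := by
    rw [mk_Pt]
    have h2 : Cardinal.lift.{u + 1} ((2 : Cardinal.{u}) ^ κ) ≤
        Cardinal.lift.{u + 1} ((2 : Cardinal.{u}) ^ (ℵ₀ : Cardinal.{u})) :=
      Cardinal.lift_le.mpr h
    simpa using h2
  obtain ⟨e⟩ := Cardinal.lift_mk_le'.mp h1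
  exact ⟨negc hκ e, negc_reg hκ e, fun Y hY => negc_mono hκ e e.injective hY⟩

end Pool.Agent.Work.MP_553296_lc
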