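import Pool.Agent.Work.MP_553296_lc.Cards

set_option autoImplicit false

/-! The positive result on well-orders whose initial segments are small. -/

namespace Pool.Agent.Work.MP_553296_lc

open Cardinal Set

universe u

variable {ι : Type u} [LinearOrder ι] [WellFoundedLT ι]

/-- `y` extends `t` and is joined to `a` in colour `i` for all `(i, a) ∈ P`. -/
def Wit (c : (ι → Bool) → (ι → Bool) → ι) (δ : ι) (t : Iic δ → Bool)
    (P : Set (ι × (ι → Bool))) (y : ι → Bool) : Prop :=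
  (∀ γ : Iic δ, y γ = t γ) ∧ ∀ p ∈ P, y ≠ p.2 ∧ c y p.2 = p.1

open Classical in
/-- A canonical witness. -/
noncomputable def yop (c : (ι → Bool) → (ι → Bool) → ι) (δ : ι) (t : Iic δ → Bool)
    (P : Set (ι × (ι → Bool))) : ι → Bool :=
  if h : ∃ y, Wit c δ t P y then h.choose else fun _ => false

theorem yop_spec {c : (ι → Bool) → (ι → Bool) → ι} {δ : ι} {t : Iic δ → Bool}
    {P : Set (ι × (ι → Bool))} (h : ∃ y, Wit c δ t P y) : Wit c δ t P (yop c δ t P) := by
  unfold yop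
  rw [dif_pos h]
  exact h.choose_spec

/-- The stages of the closure. -/
inductive InD (c : (ι → Bool) → (ι → Bool) → ι) : ι → (ι → Bool) → Prop
  | mk (α δ : ι) (t : Iic δ → Bool) (P : Set (ι × (ι → Bool))) (hP : Sm P)
      (f : P → ι) (hf : ∀ p, f p < α) (h : ∀ p : P, InD c (f p) (p : ι × (ι → Bool)).2) :
      InD c α (yop c δ t P)

theorem card_stage (hs : ∀ a : ι, Sm (Iic a)) (hbig : ¬ Sm ι)
    (c : (ι → Bool) → (ι → Bool) → ι) (α : ι) : #{y | InD c α y} ≤ 𝔠 := by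
  induction α using WellFoundedLT.induction with
  | ind α ih =>
    let E : Set (ι → Bool) := ⋃ β : Iio α, {y | InD c β y}
    have hE : #E ≤ 𝔠 := by
      calc #E ≤ sum fun β : Iio α => #{y | InD c β y} := mk_iUnion_le_sum_mk
        _ ≤ sum fun _ : Iio α => 𝔠 := sum_le_sum _ _ (fun β => ih β β.2)
        _ = #(Iio α) * 𝔠 := sum_const' _ _
        _ ≤ 𝔠 * 𝔠 := mul_le_mul'
            ((hs α).subset (fun x hx => le_of_lt hx) : Sm (Iio α)).lt_cont.le le_rfl
        _ = 𝔠 := continuum_mul_self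
    have hE2 : #(ι × E) ≤ 𝔠 := by
      have : #(ι × E) = #ι * #E := by simp
      rw [this]
      exact (mul_le_mul' (card_le_cont hs) hE).trans_eq continuum_mul_self
    let A : Type u := (Σ δ : ι, (Iic δ → Bool)) × {P : Set (ι × E) // Sm P}
    have hA : #A ≤ 𝔠 := by
      have h1 : #(Σ δ : ι, (Iic δ → Bool)) ≤ 𝔠 := by
        calc #(Σ δ : ι, (Iic δ → Bool)) = sum fun δ : ι => #(Iic δ → Bool) := mk_sigma _
          _ ≤ sum fun _ : ι => 𝔠 := by
              refine sum_le_sum _ _ (fun a => ?_)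
              have : #(Iic a → Bool) = 2 ^ #(Iic a) := by simp
              rw [this]
              exact hs a
          _ = #ι * 𝔠 := sum_const' _ _
          _ ≤ 𝔠 * 𝔠 := mul_le_mul' (card_le_cont hs) le_rfl
          _ = 𝔠 := continuum_mul_self
      have h2 := card_small_sets hs hbig hE2
      have : #A = #(Σ δ : ι, (Iic δ → Bool)) * #{P : Set (ι × E) // Sm P} := by simp [A]
      rw [this]
      exact (mul_le_mul' h1 h2).trans_eq continuum_mul_self
    let F : A → (ι → Bool) := fun a =>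
      yop c a.1.1 a.1.2 ((fun p : ι × E => (p.1, (p.2 : ι → Bool))) '' a.2.1)
    have hsub : {y | InD c α y} ⊆ range F := by
      rintro y ⟨_, δ, t, P, hP, f, hf, h⟩
      let g : ι × E → ι × (ι → Bool) := fun p => (p.1, (p.2 : ι → Bool))
      have hg : Function.Injective g := by
        rintro ⟨i, x⟩ ⟨j, y⟩ hxy
        have h1 : i = j := congrArg Prod.fst hxy
        have h2 : (x : ι → Bool) = y := congrArg Prod.snd hxy
        rw [h1, Subtype.ext h2]
      have hPg : P ⊆ range g := by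
        intro p hp
        have hpE : p.2 ∈ E := mem_iUnion.mpr ⟨⟨f ⟨p, hp⟩, hf _⟩, h ⟨p, hp⟩⟩
        exact ⟨(p.1, ⟨p.2, hpE⟩), rfl⟩
      have hPs : Sm (g ⁻¹' P) := hP.of_le (mk_preimage_of_injective g P hg)
      refine ⟨(⟨δ, t⟩, ⟨g ⁻¹' P, hPs⟩), ?_⟩
      show yop c δ t (g '' (g ⁻¹' P)) = yop c δ t P
      rw [image_preimage_eq_of_subset hPg]
    exact (mk_le_mk_of_subset hsub).trans (mk_range_le.trans hA)

/-- Existence of a closed set `D` of size at most continuum. -/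
theorem exists_closed (hs : ∀ a : ι, Sm (Iic a)) (hbig : ¬ Sm ι)
    (c : (ι → Bool) → (ι → Bool) → ι) :
    ∃ D : Set (ι → Bool), #D ≤ 𝔠 ∧ ∀ (δ : ι) (t : Iic δ → Bool) (P : Set (ι × (ι → Bool))),
      Sm P → (∀ p ∈ P, p.2 ∈ D) → (∃ y, Wit c δ t P y) → ∃ y ∈ D, Wit c δ t P y := by
  refine ⟨⋃ α : ι, {y | InD c α y}, ?_, ?_⟩
  · calc #(⋃ α : ι, {y | InD c α y}) ≤ sum fun α : ι => #{y | InD c α y} := mk_iUnion_le_sum_mk
      _ ≤ sum fun _ : ι => 𝔠 := sum_le_sum _ _ (fun β => card_stage hs hbig c β)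
      _ = #ι * 𝔠 := sum_const' _ _
      _ ≤ 𝔠 * 𝔠 := mul_le_mul' (card_le_cont hs) le_rfl
      _ = 𝔠 := continuum_mul_self
  · intro δ t P hP hPD hy
    have h1 : ∀ p : P, ∃ α : ι, InD c α (p : ι × (ι → Bool)).2 := by
      intro p
      exact mem_iUnion.mp (hPD p p.2)
    choose f hf using h1
    have h2 : Sm (range f) := hP.of_le mk_range_le
    obtain ⟨α, hα⟩ := small_bounded hs hbig h2
    refine ⟨yop c δ t P, mem_iUnion.mpr ⟨α, ?_⟩, yop_spec hy⟩
    exact InD.mk α δ t P hP f (fun p => hα _ ⟨p, rfl⟩) hf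

/-- A maximal `i`-monochromatic subset of the `i`-neighbours of `x` in `D`. -/
theorem exists_max (c : (ι → Bool) → (ι → Bool) → ι) (D : Set (ι → Bool)) (x : ι → Bool)
    (i : ι) : ∃ A : Set (ι → Bool), (A ⊆ D ∧ (∀ a ∈ A, c x a = i) ∧
      (∀ a ∈ A, ∀ b ∈ A, a ≠ b → c a b = i)) ∧
      ∀ B : Set (ι → Bool), (B ⊆ D ∧ (∀ a ∈ B, c x a = i) ∧
      (∀ a ∈ B, ∀ b ∈ B, a ≠ b → c a b = i)) → A ⊆ B → B ⊆ A := by
  obtain ⟨A, hA⟩ := zorn_subset {A : Set (ι → Bool) | A ⊆ D ∧ (∀ a ∈ A, c x a = i) ∧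
      (∀ a ∈ A, ∀ b ∈ A, a ≠ b → c a b = i)} (by
    intro C hC hchain
    refine ⟨⋃₀ C, ⟨?_, ?_, ?_⟩, fun s hs => subset_sUnion_of_mem hs⟩
    · exact sUnion_subset (fun s hs => (hC hs).1)
    · rintro a ⟨s, hs, ha⟩
      exact (hC hs).2.1 a ha
    · rintro a ⟨s, hs, ha⟩ b ⟨s', hs', hb⟩ hab
      rcases hchain.total hs hs' with h | h
      · exact (hC hs').2.2 a (h ha) b hb hab
      · exact (hC hs).2.2 a ha b (h hb) hab)
  exact ⟨A, hA.prop, fun B hB hAB => hA.le_of_ge hB hAB⟩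

/-- **Positive theorem.** If all proper initial segments of the well-order `ι` are small and `ι` is
not, every regressive colouring has a monochromatic set which is not small. -/
theorem positive (hs : ∀ a : ι, Sm (Iic a)) (hbig : ¬ Sm ι) (b : ι) (hb : ∀ a, b ≤ a)
    (c : (ι → Bool) → (ι → Bool) → ι) (hsymm : ∀ x y, c x y = c y x)
    (hreg : ∀ x y δ, b < δ → (∀ γ < δ, x γ = y γ) → x δ ≠ y δ → c x y < δ) :
    ∃ Y : Set (ι → Bool), ¬ Sm Y ∧ ∃ i, ∀ x ∈ Y, ∀ y ∈ Y, x ≠ y → c x y = i := by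
  classical
  by_contra hn
  push Not at hn
  have hmono : ∀ (Y : Set (ι → Bool)) (i : ι), (∀ x ∈ Y, ∀ y ∈ Y, x ≠ y → c x y = i) → Sm Y := by
    intro Y i hY
    by_contra hY'
    obtain ⟨x, hx, y, hy, hxy, hne⟩ := hn Y hY' i
    exact hne (hY x hx y hy hxy)
  obtain ⟨D, hD, hclosed⟩ := exists_closed hs hbig c
  choose A hA hAmax using fun x i => exists_max c D x i
  have hAs : ∀ x i, Sm (A x i) := fun x i => hmono _ i (hA x i).2.2
  let H : Type u := D ⊕ {P : Set D // Sm P}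
  have hH : #H ≤ 𝔠 := by
    have : #H = #D + #{P : Set D // Sm P} := by simp [H]
    rw [this]
    exact (add_le_add hD (card_small_sets hs hbig hD)).trans_eq continuum_add_self
  let h : (ι → Bool) → ι → H := fun x i =>
    if hx : x ∈ D then Sum.inl ⟨x, hx⟩
    else Sum.inr ⟨(Subtype.val ⁻¹' (A x i)),
      (hAs x i).of_le (mk_preimage_of_injective _ _ Subtype.val_injective)⟩
  obtain ⟨x, y, δ, hδ, hagree, hdiff, hh⟩ := weak_diamond hs hbig b hb hH h
  have hxy : x ≠ y := fun e => hdiff (by rw [e])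
  have hxD : x ∉ D := by
    intro hx
    have h1 := hh b hδ
    by_cases hy : y ∈ D
    · simp only [h, dif_pos hx, dif_pos hy] at h1
      exact hxy (congrArg Subtype.val (Sum.inl.inj h1))
    · simp only [h, dif_pos hx, dif_neg hy] at h1
      cases h1
  have hyD : y ∉ D := by
    intro hy
    have h1 := hh b hδ
    simp only [h, dif_neg hxD, dif_pos hy] at h1
    cases h1
  have hAeq : ∀ γ < δ, A x γ = A y γ := by
    intro γ hγ
    have h1 := hh γ hγ
    simp only [h, dif_neg hxD, dif_neg hyD] at h1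
    have h3 := congrArg Subtype.val (Sum.inr.inj h1)
    have h2 := congrArg (fun s : Set D => Subtype.val '' s) h3
    simp only [Subtype.image_preimage_coe] at h2
    rw [inter_eq_right.mpr (hA x γ).1, inter_eq_right.mpr (hA y γ).1] at h2
    exact h2
  -- the type of `y`
  let P : Set (ι × (ι → Bool)) := ⋃ γ : Iio δ, (fun a => ((γ : ι), a)) '' (A x γ)
  have hP : Sm P := Sm.iUnion ((hs δ).subset (fun x hx => le_of_lt hx))
    (fun γ => (hAs x γ).image _)
  have hPmem : ∀ p, p ∈ P ↔ p.1 < δ ∧ p.2 ∈ A x p.1 := by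
    intro p
    constructor
    · intro hp
      obtain ⟨γ, a, ha, rfl⟩ := mem_iUnion.mp hp
      exact ⟨γ.2, ha⟩
    · rintro ⟨h1, h2⟩
      exact mem_iUnion.mpr ⟨⟨p.1, h1⟩, p.2, h2, rfl⟩
  obtain ⟨z, hzD, hz1, hz2⟩ := hclosed δ (fun γ => y γ) P hP
    (fun p hp => (hA x p.1).1 ((hPmem p).mp hp).2)
    ⟨y, fun γ => rfl, fun p hp => by
      obtain ⟨h1, h2⟩ := (hPmem p).mp hp
      refine ⟨fun e => hyD (e ▸ (hA x p.1).1 h2), ?_⟩
      rw [hAeq p.1 h1] at h2
      exact (hA y p.1).2.1 _ h2⟩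
  have hzx : ∀ γ < δ, x γ = z γ := by
    intro γ hγ
    rw [hagree γ hγ]
    exact (hz1 ⟨γ, le_of_lt hγ⟩).symm
  have hzx' : x δ ≠ z δ := by
    rw [hz1 ⟨δ, le_rfl⟩]; exact hdiff
  have hj := hreg x z δ hδ hzx hzx'
  have hzA : z ∉ A x (c x z) := by
    intro hz
    exact (hz2 (c x z, z) ((hPmem _).mpr ⟨hj, hz⟩)).1 rfl
  have hzj : ∀ a ∈ A x (c x z), c z a = c x z := by
    intro a ha
    exact (hz2 (c x z, a) ((hPmem _).mpr ⟨hj, ha⟩)).2
  apply hzA
  refine hAmax x (c x z) (insert z (A x (c x z))) ⟨?_, ?_, ?_⟩ (subset_insert _ _)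
    (mem_insert _ _)
  · exact insert_subset hzD (hA _ _).1
  · rintro a (rfl | ha)
    · rfl
    · exact (hA x (c x z)).2.1 a ha
  · rintro a (rfl | ha) a' (rfl | ha') hne
    · exact absurd rfl hne
    · exact hzj a' ha'
    · rw [hsymm]; exact hzj a ha
    · exact (hA x (c x z)).2.2 a ha a' ha' hne

end Pool.Agent.Work.MP_553296_lc
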