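import Pool.Agent.Work.MP_553296_lc.Positive
import Pool.Agent.Work.MP_553296_lc.Negative

set_option autoImplicit false

/-! If `2 ^ ℵ₀ < 2 ^ κ` every `Δ`-regressive colouring has an uncountable monochromatic set. -/

namespace Pool.Agent.Work.MP_553296_lc

open Cardinal Set

universe u

variable {κ : Cardinal.{u}}

theorem Sm.union {α : Type u} {s t : Set α} (h1 : Sm s) (h2 : Sm t) :
    Sm (s ∪ t : Set α) := by
  unfold Sm
  calc (2 : Cardinal.{u}) ^ #(s ∪ t : Set α) ≤ 2 ^ (#s + #t) :=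
        power_le_power_left two_ne_zero (mk_union_le s t)
    _ = 2 ^ #s * 2 ^ #t := power_add _ _ _
    _ ≤ 𝔠 * 𝔠 := mul_le_mul' h1 h2
    _ = 𝔠 := continuum_mul_self

/-- The part of `κ` whose initial segments are small. -/
abbrev J (κ : Cardinal.{u}) : Type (u + 1) := {i : Set.Iio κ.ord // Sm (Iic i)}

theorem J_lower {i j : Set.Iio κ.ord} (h : i ≤ j) (hj : Sm (Iic j)) : Sm (Iic i) :=
  hj.subset (Iic_subset_Iic.mpr h)

theorem J_small (a : J κ) : Sm (Iic a) := by
  have : Function.Injective (fun x : Iic a => (⟨x.1.1, x.2⟩ : Iic a.1)) := by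
    intro x y hxy
    have h1 := congrArg (fun z : Iic a.1 => z.1) hxy
    exact Subtype.ext (Subtype.ext h1)
  exact Sm.of_injective this a.2

theorem J_big (h : (2 : Cardinal.{u}) ^ (ℵ₀ : Cardinal.{u}) < 2 ^ κ) : ¬ Sm (J κ) := by
  intro hJ
  by_cases hall : ∀ i : Set.Iio κ.ord, Sm (Iic i)
  · have h1 : Sm (Set.Iio κ.ord) :=
      Sm.of_injective (f := fun i => (⟨i, hall i⟩ : J κ))
        (fun i j hij => congrArg Subtype.val hij) hJ
    unfold Sm at h1
    rw [Cardinal.mk_Iio_ordinal, card_ord] at h1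
    have h2 : Cardinal.lift.{u + 1} ((2 : Cardinal.{u}) ^ κ) ≤
        Cardinal.lift.{u + 1} ((2 : Cardinal.{u}) ^ (ℵ₀ : Cardinal.{u})) := by
      simpa using h1
    exact absurd (Cardinal.lift_le.mp h2) (not_le.mpr h)
  · push Not at hall
    obtain ⟨i0, hi0, hmin⟩ := WellFounded.has_min (wellFounded_lt (α := Set.Iio κ.ord))
      {i | ¬ Sm (Iic i)} hall
    apply hi0
    have h1 : Sm (Iio i0) := by
      have hlow : ∀ i : Iio i0, Sm (Iic (i : Set.Iio κ.ord)) := by
        intro i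
        by_contra hn
        exact hmin i hn i.2
      exact Sm.of_injective (f := fun i : Iio i0 => (⟨i.1, hlow i⟩ : J κ))
        (fun i j hij => Subtype.ext (congrArg (fun z : J κ => z.1) hij)) hJ
    have h2 : Sm ({i0} : Set (Set.Iio κ.ord)) := Sm.of_countable (by simp)
    have h3 : Iic i0 = Iio i0 ∪ {i0} := by
      ext i
      simp only [mem_Iic, mem_union, mem_Iio, mem_singleton_iff]
      exact le_iff_lt_or_eq
    rw [h3]
    exact h1.union h2

open Classical in
/-- Extension by `false`. -/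
noncomputable def ext (x : J κ → Bool) : Pt κ := fun i =>
  if h : Sm (Iic i) then x ⟨i, h⟩ else false

theorem ext_apply (x : J κ → Bool) (i : J κ) : ext x i.1 = x i := by
  unfold ext
  rw [dif_pos i.2]

theorem ext_inj : Function.Injective (ext (κ := κ)) := by
  intro x y hxy
  funext i
  rw [← ext_apply x i, ← ext_apply y i, hxy]

theorem delta_ext {x y : J κ → Bool} {δ : J κ} (h1 : ∀ γ < δ, x γ = y γ) (h2 : x δ ≠ y δ) :
    delta (ext x) (ext y) = ((δ : Set.Iio κ.ord) : Ordinal.{u}) := by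
  refine delta_eq (δ.1.2) ?_ ?_
  · intro γ hγ hlt
    have hle : (⟨γ, hγ⟩ : Set.Iio κ.ord) ≤ δ.1 := le_of_lt hlt
    have hJ : Sm (Iic (⟨γ, hγ⟩ : Set.Iio κ.ord)) := J_lower hle δ.2
    have e := h1 ⟨⟨γ, hγ⟩, hJ⟩ hlt
    have ex := ext_apply x ⟨⟨γ, hγ⟩, hJ⟩
    have ey := ext_apply y ⟨⟨γ, hγ⟩, hJ⟩
    exact ex.trans (e.trans ey.symm)
  · have ex := ext_apply x δ
    have ey := ext_apply y δ
    intro e
    exact h2 (ex.symm.trans (e.trans ey))

/-- If `2 ^ ℵ₀ < 2 ^ κ`, every `Δ`-regressive colouring has a monochromatic set with more than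
continuum many subsets. -/
theorem pos_Pt (hκ : ℵ₀ < κ) (h : (2 : Cardinal.{u}) ^ (ℵ₀ : Cardinal.{u}) < 2 ^ κ)
    (c : Sym2 (Pt κ) → Set.Iio κ.ord) (hc : IsDeltaRegressive c) :
    ∃ Y : Set (Pt κ), ¬ Sm Y ∧ IsMonochromatic c Y := by
  classical
  have h0 : (0 : Ordinal.{u}) < κ.ord := by
    have := nat_lt hκ 0
    simpa using this
  let b0 : Set.Iio κ.ord := ⟨0, h0⟩
  have hb0 : ∀ a : Set.Iio κ.ord, b0 ≤ a := fun a =>
    (bot_le : (0 : Ordinal.{u}) ≤ (a : Ordinal.{u}))
  have hbS : Sm (Iic b0) := by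
    have : Iic b0 = {b0} := by
      ext i
      simp only [mem_Iic, mem_singleton_iff]
      exact ⟨fun hi => le_antisymm hi (hb0 i), fun hi => hi.le⟩
    rw [this]
    exact Sm.of_countable (by simp)
  let b : J κ := ⟨b0, hbS⟩
  have hb : ∀ a : J κ, b ≤ a := fun a => hb0 a.1
  let c' : (J κ → Bool) → (J κ → Bool) → J κ := fun x y =>
    if hS : Sm (Iic (c s(ext x, ext y))) then ⟨c s(ext x, ext y), hS⟩ else b
  have hsymm : ∀ x y, c' x y = c' y x := by
    intro x y
    show (if hS : Sm (Iic (c s(ext x, ext y))) then (⟨c s(ext x, ext y), hS⟩ : J κ) else b) = _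
    have : s(ext x, ext y) = s(ext y, ext x) := Sym2.eq_swap
    simp only [this]
    rfl
  have hcore : ∀ (x y : J κ → Bool) (δ : J κ), b < δ → (∀ γ < δ, x γ = y γ) → x δ ≠ y δ →
      (c s(ext x, ext y)) < δ.1 := by
    intro x y δ hbδ h1 h2
    have hd := delta_ext h1 h2
    have hne : ext x ≠ ext y := fun e => h2 (by rw [ext_inj e])
    have h3 := hc _ _ hne (by rw [hd]; exact hbδ)
    rw [hd] at h3
    exact h3
  have hval : ∀ (x y : J κ → Bool) (δ : J κ), b < δ → (∀ γ < δ, x γ = y γ) → x δ ≠ y δ →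
      (c' x y).1 = c s(ext x, ext y) := by
    intro x y δ hbδ h1 h2
    have h3 := hcore x y δ hbδ h1 h2
    have hS : Sm (Iic (c s(ext x, ext y))) := J_lower h3.le δ.2
    simp only [c', dif_pos hS]
  obtain ⟨Y, hY, i, hi⟩ := positive J_small (J_big h) b hb c' hsymm (by
    intro x y δ hbδ h1 h2
    show (c' x y).1 < δ.1
    rw [hval x y δ hbδ h1 h2]
    exact hcore x y δ hbδ h1 h2)
  -- restrict to one side of the first coordinate
  have hside : ∃ e : Bool, ¬ Sm (Y ∩ {x | x b = e} : Set (J κ → Bool)) := by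
    by_contra hn
    push Not at hn
    apply hY
    have h1 : Y = (Y ∩ {x | x b = true}) ∪ (Y ∩ {x | x b = false}) := by
      ext x
      simp only [mem_union, mem_inter_iff, mem_ofPred_eq]
      cases x b <;> simp
    rw [h1]
    exact (hn true).union (hn false)
  obtain ⟨e, he⟩ := hside
  refine ⟨ext '' (Y ∩ {x | x b = e}), ?_, i.1, ?_⟩
  · intro hS
    apply he
    unfold Sm at hS ⊢
    rwa [mk_image_eq ext_inj] at hS
  · rintro _ ⟨x, ⟨hx, hxe⟩, rfl⟩ _ ⟨y, ⟨hy, hye⟩, rfl⟩ hne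
    have hxy : x ≠ y := fun e => hne (by rw [e])
    obtain ⟨δ, hδ, hmin⟩ := WellFounded.has_min (wellFounded_lt (α := J κ))
      {i | x i ≠ y i} (Function.ne_iff.mp hxy)
    have h1 : ∀ γ < δ, x γ = y γ := by
      intro γ hγ
      by_contra hn
      exact hmin γ hn hγ
    have hbδ : b < δ := by
      refine lt_of_le_of_ne (hb δ) ?_
      rintro rfl
      exact hδ (hxe.trans hye.symm)
    rw [← hval x y δ hbδ h1 hδ, hi x hx y hy hxy]

/-- From a non-small set one can pick a subset of any size `θ ≤ ℵ₁`. -/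
theorem exists_subset_card {α : Type u} {Y : Set α} (hY : ¬ Sm Y) {θ : Cardinal.{u}}
    (hθ : θ ≤ ℵ₁) : ∃ Z ⊆ Y, #Z = θ := by
  have h1 : ℵ₁ ≤ #Y := by
    rw [← succ_aleph0]
    refine Order.succ_le_of_lt ?_
    by_contra hn
    exact hY (Sm.of_countable (not_lt.mp hn))
  exact le_mk_iff_exists_subset.mp (hθ.trans h1)

end Pool.Agent.Work.MP_553296_lc
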